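import Pool.Agent.Q58.CN.FunF
import Pool.Agent.Q58.CN.Conn2

/-!
# A Kobayashi hyperbolic projective surface with a curve of negative conormal intersection number

There are a smooth connected closed surface `X ⊆ P² × P²` over the complex numbers that is Kobayashi
hyperbolic, and an irreducible closed curve `Z ⊆ X`, such that `T*_Z X · T*_X X = -16 < 0`. The
number is computed in two ways, on the conormal variety and by the index formula.
-/

set_option autoImplicit false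

open Pool.Agent.TH144.CN Pool.Agent.Q58.CN

namespace Pool.Agent.Results.MP_225e67_ag.NegativeIntersection

theorem result : ∃ X Z : ClosedSet,
    X.SmoothSurface ∧ X.Connected ∧ KobayashiHyperbolic X.points ∧
    Z.points.Nonempty ∧ Z.points ⊆ X.points ∧
    ∃ (K : Type) (_ : Field K) (_ : Algebra ℂ K) (b x : Fin 3 → K),
      Z.FunctionField K b x ∧ Algebra.EssFiniteType ℂ K ∧ Algebra.trdeg ℂ K = 1 ∧
      (∃ D : Derivation ℂ K K, D ≠ 0) ∧
      ∀ D : Derivation ℂ K K, D ≠ 0 →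
        conormalNumber b x D = -16 ∧ indexNumber b x D = -16 := by
  obtain ⟨γ, hγ0, hγ1, hγ2, hγ3⟩ := exists_gamma
  obtain ⟨ζ, hζ⟩ := IsAlgClosed.exists_pow_nat_eq (-1 : ℂ) (n := 4) (by norm_num)
  obtain ⟨K, iF, iA, y, w, h, ht, hfin, hrk, hadj, hker⟩ := exists_field
  have hFF : FF.IsFF ℂ K := FF.IsFF.of_finite ht hfin
  have hw : w ≠ 0 := by
    rintro rfl
    apply ht
    refine ⟨Polynomial.X ^ 16 + 1, ?_, ?_⟩
    · intro h0
      have := congrArg (Polynomial.eval 0) h0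
      simp at this
    · have : y ^ 16 + 1 = 0 := by simpa using h
      simpa using this
  refine ⟨Xs γ, Zs ζ, smooth hγ0 hγ1 hγ2 hγ3, connected hγ0 hγ1, Xs_hyperbolic hγ0, ?_, ?_,
    K, iF, iA, bc K ζ, xc y w, functionField h ht hw hadj hker, hFF.ess, hFF.trdeg,
    Pool.Agent.W603.LV.exists_der, fun D hD => numbers h ht hrk hD⟩
  · have hb : (![1, 0, ζ] : Fin 3 → ℂ) ≠ 0 := fun h0 => one_ne_zero (congrFun h0 0)
    have hx : (![1, 0, 0] : Fin 3 → ℂ) ≠ 0 := fun h0 => one_ne_zero (congrFun h0 0)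
    refine ⟨_, ![1, 0, ζ], ![1, 0, 0], hb, hx, mem_Zs.2 ⟨hb, hx, rfl, ?_, ?_⟩, rfl⟩
    · change ζ = ζ * 1
      rw [mul_one]
    · change (1 : ℂ) ^ 240 * 0 ^ 16 + 0 ^ 256 + 1 ^ 16 * 0 ^ 240 = 0
      norm_num
  · rintro p ⟨b, x, hb, hx, hm, rfl⟩
    refine ⟨b, x, hb, hx, ?_, rfl⟩
    rw [mem_Zs] at hm
    obtain ⟨-, -, h1, h2, h3⟩ := hm
    rw [mem_Xs]
    refine ⟨hb, hx, ?_, ?_⟩
    · rw [h1, h2, Algebra.algebraMap_self_apply]
      linear_combination b 0 ^ 4 * hζ
    · rw [h1]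
      unfold Af
      linear_combination b 0 * h3

end Pool.Agent.Results.MP_225e67_ag.NegativeIntersection
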